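import Pool.Agent.H646.CS.Stm

set_option autoImplicit false
set_option linter.unusedSectionVars false

namespace Pool.Agent.H353.CSpair

open MeasureTheory ProbabilityTheory Set Topology TopologicalSpace Filter
open scoped ENNReal
open Pool.Agent.H646.CR (P en en_surj dn b2r IsPD mu IsSys)
open Pool.Agent.H646.CS

section

variable {G K H M : Type} [Group G] [Countable G] [TopologicalSpace K] [CompactSpace K]
  [MetrizableSpace K] [MeasurableSpace K] [BorelSpace K]
  [MulAction G (P × K)] [ContinuousConstSMul G (P × K)]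
  [Group H] [Countable H] [TopologicalSpace M] [CompactSpace M]
  [MetrizableSpace M] [MeasurableSpace M] [BorelSpace M]
  [MulAction H (P × M)] [ContinuousConstSMul H (P × M)]

lemma meas_lab (g : G) (u : H) : MeasurableSet {ω : St G K H M | ω.2.2 g u = true} := by
  have h : Measurable fun ω : St G K H M => ω.2.2 g u :=
    (measurable_pi_apply u).comp ((measurable_pi_apply g).comp
      (measurable_snd.comp measurable_snd))
  exact h (measurableSet_singleton true)

lemma meas_dn (l : ℕ) : Measurable fun x : P × M => dn (P × M) l x :=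
  (dn (P × M) l).continuous.measurable

lemma meas_FX (l : ℕ) (g : G) : MeasurableSet (FX (K := K) (H := H) (M := M) l g) := by
  have h : FX (K := K) (H := H) (M := M) l g =
      ⋃ m : ℕ, ({ω : St G K H M | |dn (P × M) l ω.1 - m| ≤ 1 / 4} ∩
      {ω : St G K H M | ω.2.2 g (en H m) = true}) := by
    ext ω
    simp [FX]
  rw [h]
  refine MeasurableSet.iUnion fun m => MeasurableSet.inter ?_ (meas_lab _ _)
  have h1 : Measurable fun ω : St G K H M => |dn (P × M) l ω.1 - m| :=
    (((meas_dn l).comp measurable_fst).sub_const _).abs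
  exact measurableSet_le h1 measurable_const

lemma meas_HX (q : P × K → Bool) (hq : Continuous q) (l : ℕ) :
    MeasurableSet (HX (G := G) (H := H) (M := M) q l) := by
  have h2 : Measurable fun ω : St G K H M => b2r (q ω.2.1) :=
    (measurable_of_countable b2r).comp (hq.measurable.comp (measurable_fst.comp measurable_snd))
  have h1 : Measurable fun ω : St G K H M => |dn (P × M) l ω.1 - b2r (q ω.2.1)| :=
    (((meas_dn l).comp measurable_fst).sub h2).abs
  exact measurableSet_le h1 measurable_const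

lemma compl_le {X : Type} [MeasurableSpace X] (η : Measure X) [IsProbabilityMeasure η] {A : Set X}
    (hA : MeasurableSet A) (h : ENNReal.ofReal (1 - 1 / 10 ^ 7) ≤ η A) :
    η Aᶜ ≤ ENNReal.ofReal (1 / 10 ^ 7) := by
  rw [prob_compl_eq_one_sub hA]
  rw [tsub_le_iff_right]
  have h1 : (1 : ℝ≥0∞) = ENNReal.ofReal (1 / 10 ^ 7) + ENNReal.ofReal (1 - 1 / 10 ^ 7) := by
    rw [← ENNReal.ofReal_add (by norm_num) (by norm_num)]
    norm_num
  rw [h1]
  gcongr

/-- the digit read off from the base point -/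
noncomputable def HH (l : ℕ) (x : P × M) : Bool := decide (1 / 2 < dn (P × M) l x)

lemma HH_eq {q : P × K → Bool} {l : ℕ} {ω : St G K H M} (h : ω ∈ HX q l) :
    HH l ω.1 = q ω.2.1 := by
  have h' : |dn (P × M) l ω.1 - b2r (q ω.2.1)| ≤ 1 / 4 := h
  rw [abs_le] at h'
  unfold HH
  cases hq : q ω.2.1 with
  | true =>
    rw [hq] at h'
    simp only [b2r, if_true] at h'
    rw [decide_eq_true_eq]
    linarith [h'.1]
  | false =>
    rw [hq] at h'
    simp only [b2r, Bool.false_eq_true, if_false] at h'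
    rw [decide_eq_false_iff_not]
    linarith [h'.2]

lemma meas_HH (l : ℕ) : Measurable (HH (M := M) l) := by
  apply measurable_to_bool
  have : HH (M := M) l ⁻¹' {true} = {x | 1 / 2 < dn (P × M) l x} := by
    ext x; simp [HH]
  rw [this]
  exact measurableSet_lt measurable_const (meas_dn l)

/-- the set of bad states -/
def Bad (G H M : Type) [TopologicalSpace M] [CompactSpace M] [MetrizableSpace M]
    (q : P × K → Bool) (l : ℕ) : Set (St G K H M) := {ω | HH l ω.1 ≠ q ω.2.1}

lemma meas_Bad (q : P × K → Bool) (hq : Continuous q) (l : ℕ) :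
    MeasurableSet (Bad G H M q l) := by
  have h1 : Measurable fun ω : St G K H M => HH l ω.1 := (meas_HH l).comp measurable_fst
  have h2 : Measurable fun ω : St G K H M => q ω.2.1 :=
    hq.measurable.comp (measurable_fst.comp measurable_snd)
  exact (measurableSet_eq_fun h1 h2).compl

lemma Bad_le (q : P × K → Bool) (hq : Continuous q) (l : ℕ) (η : Measure (St G K H M))
    [IsProbabilityMeasure η] (h : ENNReal.ofReal (1 - 1 / 10 ^ 7) ≤ η (HX q l)) :
    η (Bad G H M q l) ≤ ENNReal.ofReal (1 / 10 ^ 7) := by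
  refine le_trans (measure_mono ?_) (compl_le η (meas_HX q hq l) h)
  intro ω hω hω2
  exact hω (HH_eq hω2)

/-- the transported bad event -/
lemma Bad_move (q : P × K → Bool) (hq : Continuous q) (l : ℕ) (η : Measure (St G K H M))
    (hη : W0 η) (a : G) :
    η (⋃ u : H, ({ω : St G K H M | ω.2.2 a u = true} ∩ T a u ⁻¹' (Bad G H M q l))) ≤
      η (Bad G H M q l) := by
  have hB := meas_Bad (G := G) (H := H) (M := M) q hq l
  calc η (⋃ u : H, ({ω : St G K H M | ω.2.2 a u = true} ∩ T a u ⁻¹' (Bad G H M q l)))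
      ≤ ∑' u : H, η ({ω : St G K H M | ω.2.2 a u = true} ∩ T a u ⁻¹' (Bad G H M q l)) :=
        measure_iUnion_le _
    _ = ∑' u : H, η ({ω : St G K H M | ω.2.2 a⁻¹ u⁻¹ = true} ∩ Bad G H M q l) := by
        congr 1
        ext1 u
        exact hη.inv a u _ hB
    _ = η (⋃ u : H, ({ω : St G K H M | ω.2.2 a⁻¹ u⁻¹ = true} ∩ Bad G H M q l)) := by
        symm
        apply measure_iUnion₀
        · intro u w huw
          have h0 := hη.lab_uniq a⁻¹ u⁻¹ w⁻¹ (fun h => huw (inv_injective h))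
          refine measure_mono_null ?_ h0
          rintro ω ⟨⟨h1, -⟩, ⟨h2, -⟩⟩
          exact ⟨h1, h2⟩
        · intro u
          exact ((meas_lab _ _).inter hB).nullMeasurableSet
    _ ≤ η (Bad G H M q l) := measure_mono (iUnion_subset fun u => inter_subset_right)

lemma floor_eq {y : ℝ} {m : ℕ} (h : |y - m| ≤ 1 / 4) : ⌊y + 1 / 2⌋₊ = m := by
  rw [abs_le] at h
  have hm : (0 : ℝ) ≤ m := Nat.cast_nonneg m
  rw [Nat.floor_eq_iff (by linarith [h.1])]
  constructor <;> linarith [h.1, h.2]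

/-- the predicted label -/
noncomputable def th (H : Type) [Group H] [Countable H] (l : ℕ) (x : P × M) : H :=
  en H ⌊dn (P × M) l x + 1 / 2⌋₊

lemma th_spec {l : ℕ} {g : G} {ω : St G K H M} (h : ω ∈ FX l g) :
    ω.2.2 g (th H l ω.1) = true := by
  obtain ⟨m, hm, hm2⟩ := h
  unfold th
  rw [floor_eq hm]
  exact hm2

lemma th_meas (l : ℕ) (u : H) : MeasurableSet ((th (M := M) H l) ⁻¹' {u}) := by
  have h1 : Measurable fun x : P × M => ⌊dn (P × M) l x + 1 / 2⌋₊ :=
    Nat.measurable_floor.comp ((meas_dn l).add_const _)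
  have h2 : (th (M := M) H l) ⁻¹' {u} =
      (fun x : P × M => ⌊dn (P × M) l x + 1 / 2⌋₊) ⁻¹' (en H ⁻¹' {u}) := rfl
  rw [h2]
  exact h1 (MeasurableSet.of_discrete)

lemma lab_le (η : Measure (St G K H M)) [IsProbabilityMeasure η] (l : ℕ) (g : G)
    (h : ENNReal.ofReal (1 - 1 / 10 ^ 7) ≤ η (FX l g)) :
    η {ω | ω.2.2 g (th H l ω.1) = false} ≤ ENNReal.ofReal (1 / 10 ^ 7) := by
  refine le_trans (measure_mono ?_) (compl_le η (meas_FX l g) h)
  intro ω hω hω2
  have h1 := th_spec hω2
  have h2 : ω.2.2 g (th H l ω.1) = false := hω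
  rw [h1] at h2
  exact Bool.noConfusion h2

/-- the moved point -/
lemma smul_meas (θ : P × M → H) (hθ : ∀ u, MeasurableSet (θ ⁻¹' {u})) :
    Measurable fun x => θ x • x := by
  intro D hD
  have h : (fun x => θ x • x) ⁻¹' D = ⋃ u : H, (θ ⁻¹' {u} ∩ (fun x : P × M => u • x) ⁻¹' D) := by
    ext x
    simp
  rw [h]
  refine MeasurableSet.iUnion fun u => (hθ u).inter ?_
  exact (continuous_const_smul u).measurable hD

lemma A_meas (θ θ' : P × M → H) (hθ : ∀ u, MeasurableSet (θ ⁻¹' {u}))
    (hθ' : ∀ u, MeasurableSet (θ' ⁻¹' {u})) :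
    MeasurableSet {x | θ' (θ x • x) = (θ x)⁻¹} := by
  have h : {x | θ' (θ x • x) = (θ x)⁻¹} = ⋃ u : H, (θ ⁻¹' {u} ∩
      (fun x : P × M => θ x • x) ⁻¹' (θ' ⁻¹' {u⁻¹})) := by
    ext x
    simp
  rw [h]
  exact MeasurableSet.iUnion fun u => (hθ u).inter (smul_meas θ hθ (hθ' _))

lemma Ht_meas (F F' : P × M → ℝ≥0∞) (hF : Measurable F) (hF' : Measurable F') :
    MeasurableSet {p : (P × M) × ℝ | Ht F F' p.1 p.2} := by
  have h1 : MeasurableSet {p : (P × M) × ℝ | 0 < p.2} :=
    measurableSet_lt measurable_const measurable_snd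
  have h2 : MeasurableSet {p : (P × M) × ℝ | ENNReal.ofReal p.2 * F p.1 < 1} :=
    measurableSet_lt ((ENNReal.measurable_ofReal.comp measurable_snd).mul
      (hF.comp measurable_fst)) measurable_const
  have h3 : MeasurableSet {p : (P × M) × ℝ | ENNReal.ofReal p.2 * F' p.1 < 1} :=
    measurableSet_lt ((ENNReal.measurable_ofReal.comp measurable_snd).mul
      (hF'.comp measurable_fst)) measurable_const
  exact h1.inter (h2.inter h3)

lemma NC_meas (F F' : P × M → ℝ≥0∞) (hF : Measurable F) (hF' : Measurable F') (g : G) (u : H) :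
    MeasurableSet (NC (K := K) F F' g u) := by
  have hb1 : Measurable fun ω : Cp G K H M => ω.1.2.1.2 g u :=
    (measurable_pi_apply u).comp ((measurable_pi_apply g).comp
      (measurable_snd.comp (measurable_fst.comp (measurable_snd.comp measurable_fst))))
  have hb2 : Measurable fun ω : Cp G K H M => ω.1.2.2.2 g u :=
    (measurable_pi_apply u).comp ((measurable_pi_apply g).comp
      (measurable_snd.comp (measurable_snd.comp (measurable_snd.comp measurable_fst))))
  have h3 : Measurable fun ω : Cp G K H M => ((ω.1.1, ω.2) : (P × M) × ℝ) :=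
    (measurable_fst.comp measurable_fst).prodMk measurable_snd
  have h4 : Measurable fun ω : Cp G K H M => ((u • ω.1.1, ω.2) : (P × M) × ℝ) :=
    ((continuous_const_smul u).measurable.comp
      (measurable_fst.comp measurable_fst)).prodMk measurable_snd
  exact (hb1 (measurableSet_singleton true)).inter ((hb2 (measurableSet_singleton true)).inter
    ((h3 (Ht_meas F F' hF hF')).inter (h4 (Ht_meas F F' hF hF'))))

lemma shL_meas (g : G) (u : H) : Measurable (shL g u : Lab G H → Lab G H) := by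
  refine measurable_pi_lambda _ fun h => measurable_pi_lambda _ fun w => ?_
  exact (measurable_pi_apply (w * u)).comp (measurable_pi_apply (h * g))

lemma TC_meas (g : G) (u : H) : Measurable (TC (K := K) (M := M) g u) := by
  have hs : Measurable fun ω : Cp G K H M => u • ω.1.1 :=
    (continuous_const_smul u).measurable.comp (measurable_fst.comp measurable_fst)
  have a1 : Measurable fun ω : Cp G K H M => ω.1.2.1 :=
    measurable_fst.comp (measurable_snd.comp measurable_fst)
  have a2 : Measurable fun ω : Cp G K H M => ω.1.2.2 :=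
    measurable_snd.comp (measurable_snd.comp measurable_fst)
  have b1 : Measurable fun ω : Cp G K H M => (g • ω.1.2.1.1, shL g u ω.1.2.1.2) :=
    ((continuous_const_smul g).measurable.comp (measurable_fst.comp a1)).prodMk
      ((shL_meas g u).comp (measurable_snd.comp a1))
  have b2 : Measurable fun ω : Cp G K H M => (g • ω.1.2.2.1, shL g u ω.1.2.2.2) :=
    ((continuous_const_smul g).measurable.comp (measurable_fst.comp a2)).prodMk
      ((shL_meas g u).comp (measurable_snd.comp a2))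
  exact (hs.prodMk (b1.prodMk b2)).prodMk measurable_snd

end

theorem holds (hpd : S_pd) (hcoup : S_coup) (hht : S_ht) (hone : S_one) : S_pair := by
  intro G K H M _ _ _ _ _ _ _ _ _ _ _ _ _ _ _ _ _ _ lam q c Q X0 hS m hT l l' t t' s η η' F F'
    hη hη' hF hF' hFt hFt' hmF hmF' hmin
  have hmp := hT.prob
  have := hη.w0.prob
  have := hη'.w0.prob
  obtain ⟨C, hCa, hCb, hCb', hCc⟩ := hcoup G K H M m hT s η η' F F' hη.w0 hη'.w0 hF hF' hFt hFt'
    hmF hmF'
  have hprob : IsProbabilityMeasure (mu m s) := by unfold mu; infer_instance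
  have hmapm : Measurable (fun ω : Cp G K H M => ((ω.1.1, ω.2) : (P × M) × ℝ)) :=
    (measurable_fst.comp measurable_fst).prodMk measurable_snd
  have hHtm := Ht_meas F F' hF hF'
  have hCη : ∀ A : Set (St G K H M), C {ω | (ω.1.1, ω.1.2.1) ∈ A} ≤ η A := by
    intro A
    calc C {ω | (ω.1.1, ω.1.2.1) ∈ A} ≤ C {ω | (ω.1.1, ω.1.2.1) ∈ toMeasurable η A} :=
          measure_mono fun ω hω => subset_toMeasurable η A hω
      _ ≤ η (toMeasurable η A) := hCb _ (measurableSet_toMeasurable η A)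
      _ = η A := measure_toMeasurable A
  have hCη' : ∀ A : Set (St G K H M), C {ω | (ω.1.1, ω.1.2.2) ∈ A} ≤ η' A := by
    intro A
    calc C {ω | (ω.1.1, ω.1.2.2) ∈ A} ≤ C {ω | (ω.1.1, ω.1.2.2) ∈ toMeasurable η' A} :=
          measure_mono fun ω hω => subset_toMeasurable η' A hω
      _ ≤ η' (toMeasurable η' A) := hCb' _ (measurableSet_toMeasurable η' A)
      _ = η' A := measure_toMeasurable A
  -- events depending on the base point and the height
  have hprodF : Measurable fun p : (P × M) × ℝ => F p.1 * F' p.1 :=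
    (hF.comp measurable_fst).mul (hF'.comp measurable_fst)
  have hE : ∀ E : Set ((P × M) × ℝ), MeasurableSet E → C {ω | (ω.1.1, ω.2) ∈ E} =
      ∫⁻ x, F x * F' x * volume {r : ℝ | Ht F F' x r ∧ (x, r) ∈ E} ∂(mu m s) := by
    intro E hEm
    have h1 : C {ω | (ω.1.1, ω.2) ∈ E} =
        Measure.map (fun ω : Cp G K H M => ((ω.1.1, ω.2) : (P × M) × ℝ)) C E := by
      rw [Measure.map_apply hmapm hEm]
      rfl
    rw [h1, hCa, withDensity_apply _ hEm, ← lintegral_indicator hEm]
    have hm1 : Measurable (E.indicator fun p : (P × M) × ℝ =>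
        {p : (P × M) × ℝ | Ht F F' p.1 p.2}.indicator (fun p => F p.1 * F' p.1) p) :=
      (hprodF.indicator hHtm).indicator hEm
    rw [lintegral_prod _ hm1.aemeasurable]
    refine lintegral_congr fun x => ?_
    have hset : MeasurableSet {r : ℝ | Ht F F' x r ∧ (x, r) ∈ E} :=
      measurable_prodMk_left (hHtm.inter hEm)
    have h2 : (fun r : ℝ => E.indicator (fun p : (P × M) × ℝ =>
        {p : (P × M) × ℝ | Ht F F' p.1 p.2}.indicator (fun p => F p.1 * F' p.1) p) (x, r)) =
        {r : ℝ | Ht F F' x r ∧ (x, r) ∈ E}.indicator (fun _ => F x * F' x) := by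
      funext r
      by_cases hr1 : (x, r) ∈ E
      · by_cases hr2 : Ht F F' x r
        · rw [indicator_of_mem hr1, indicator_of_mem (show (x, r) ∈
            {p : (P × M) × ℝ | Ht F F' p.1 p.2} from hr2),
            indicator_of_mem (show r ∈ {r : ℝ | Ht F F' x r ∧ (x, r) ∈ E} from ⟨hr2, hr1⟩)]
        · rw [indicator_of_mem hr1, indicator_of_notMem (show (x, r) ∉
            {p : (P × M) × ℝ | Ht F F' p.1 p.2} from hr2),
            indicator_of_notMem (show r ∉ {r : ℝ | Ht F F' x r ∧ (x, r) ∈ E} from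
              fun h => hr2 h.1)]
      · rw [indicator_of_notMem hr1,
          indicator_of_notMem (show r ∉ {r : ℝ | Ht F F' x r ∧ (x, r) ∈ E} from
            fun h => hr1 h.2)]
    rw [h2, lintegral_indicator hset, setLIntegral_const]
  -- total mass
  have hT0 : C univ = ∫⁻ x, min (F x) (F' x) ∂(mu m s) := by
    have h1 := hE univ MeasurableSet.univ
    simp only [mem_univ, and_true, setOf_true] at h1
    rw [h1]
    refine lintegral_congr fun x => ?_
    exact (hht (F x) (F' x) 0 0 (hFt x) (hFt' x) ENNReal.zero_lt_top ENNReal.zero_lt_top).1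
  have hT1 : C univ ≤ 1 := by
    have h1 := hCη univ
    simp only [mem_univ, setOf_true, measure_univ] at h1
    exact h1
  have hT99 : ENNReal.ofReal (99 / 100) ≤ C univ := hT0 ▸ hmin
  have hfin : IsFiniteMeasure C := ⟨hT1.trans_lt ENNReal.one_lt_top⟩
  have hT0ne : C univ ≠ 0 := by
    intro h
    rw [h] at hT99
    have h1 : ENNReal.ofReal (99 / 100) = 0 := le_antisymm hT99 zero_le'
    rw [ENNReal.ofReal_eq_zero] at h1
    norm_num at h1
  have hHtae : C {ω | ¬ Ht F F' ω.1.1 ω.2} = 0 := by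
    have h1 := hE {p | Ht F F' p.1 p.2}ᶜ hHtm.compl
    have h2 : {ω : Cp G K H M | (ω.1.1, ω.2) ∈ {p : (P × M) × ℝ | Ht F F' p.1 p.2}ᶜ} =
        {ω | ¬ Ht F F' ω.1.1 ω.2} := rfl
    rw [h2] at h1
    rw [h1]
    have h3 : ∀ x : P × M, {r : ℝ | Ht F F' x r ∧ (x, r) ∈
        {p : (P × M) × ℝ | Ht F F' p.1 p.2}ᶜ} = ∅ := by
      intro x
      ext r
      simp
    simp only [h3, measure_empty, mul_zero, lintegral_zero]
  -- positive definiteness
  have hPD := hpd G H (Cp G K H M) C (NC F F') TC hfin hT0ne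
    (NC_meas F F' hF hF') TC_meas
    (by
      intro g u h w ω hω
      constructor
      · rintro ⟨h1, h2, h3, h4⟩
        refine ⟨h1, h2, hω.2.2.1, ?_⟩
        have h5 : Ht F F' (w • u • ω.1.1) ω.2 := h4
        rw [← mul_smul] at h5
        exact h5
      · rintro ⟨h1, h2, h3, h4⟩
        refine ⟨h1, h2, hω.2.2.2, ?_⟩
        show Ht F F' (w • u • ω.1.1) ω.2
        rw [← mul_smul]
        exact h4)
    (by
      have hsub : (NC F F' (1 : G) (1 : H))ᶜ ⊆
          {ω : Cp G K H M | (ω.1.1, ω.1.2.1) ∈ {ω : St G K H M | ω.2.2 1 1 = false}} ∪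
          ({ω : Cp G K H M | (ω.1.1, ω.1.2.2) ∈ {ω : St G K H M | ω.2.2 1 1 = false}} ∪
            {ω | ¬ Ht F F' ω.1.1 ω.2}) := by
        intro ω hω
        by_contra hcon
        simp only [mem_union, mem_setOf_eq, not_or, Bool.not_eq_false, not_not] at hcon
        apply hω
        refine ⟨hcon.1, hcon.2.1, hcon.2.2, ?_⟩
        rw [one_smul]
        exact hcon.2.2
      refine measure_mono_null hsub ?_
      rw [measure_union_null_iff, measure_union_null_iff]
      refine ⟨?_, ?_, hHtae⟩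
      · exact le_antisymm ((hCη _).trans hη.w0.lab_one.le) zero_le'
      · exact le_antisymm ((hCη' _).trans hη'.w0.lab_one.le) zero_le')
    (by
      intro g u w huw
      refine le_antisymm (le_trans (measure_mono ?_) ((hCη _).trans (hη.w0.lab_uniq g u w huw).le))
        zero_le'
      rintro ω ⟨h1, h2⟩
      exact ⟨h1.1, h2.1⟩)
    hCc
  set T0 := (C univ).toReal with hT0d
  have hT0r : 99 / 100 ≤ T0 := by
    have h1 := (ENNReal.ofReal_le_iff_le_toReal (measure_ne_top C univ)).1 hT99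
    exact h1
  have hT0r1 : T0 ≤ 1 := by
    have h1 := ENNReal.toReal_mono ENNReal.one_ne_top hT1
    simpa using h1
  have hgen : ∀ i, 1 - 2 / 10 ^ 6 ≤ (C (⋃ u : H, NC F F' (Q i) u)).toReal / T0 := by
    intro i
    set N := ⋃ u : H, NC (K := K) (M := M) F F' (Q i) u with hN
    set e : ℝ≥0∞ := ENNReal.ofReal (1 / 10 ^ 7) with he
    set θ : P × M → H := th H (l (i, false)) with hθd
    set θ' : P × M → H := th H (l (i, true)) with hθd'
    have hθ : ∀ u, MeasurableSet (θ ⁻¹' {u}) := th_meas _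
    have hθ' : ∀ u, MeasurableSet (θ' ⁻¹' {u}) := th_meas _
    have q1 : Q8 Q (i, false) = Q i := rfl
    have q2 : Q8 Q (i, true) = (Q i)⁻¹ := rfl
    have a1 : η {ω | ω.2.2 (Q i) (θ ω.1) = false} ≤ e :=
      lab_le η _ _ (q1 ▸ hη.gen (i, false))
    have a2 : η {ω | ω.2.2 (Q i)⁻¹ (θ' ω.1) = false} ≤ e :=
      lab_le η _ _ (q2 ▸ hη.gen (i, true))
    have b1 : η' {ω | ω.2.2 (Q i) (θ ω.1) = false} ≤ e :=
      lab_le η' _ _ (q1 ▸ hη'.gen (i, false))
    have b2 : η' {ω | ω.2.2 (Q i)⁻¹ (θ' ω.1) = false} ≤ e :=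
      lab_le η' _ _ (q2 ▸ hη'.gen (i, true))
    obtain ⟨o1, o2⟩ := hone G K H M m hT s η F hη.w0 hF hmF (Q i) θ θ' e hθ hθ' a1 a2
    obtain ⟨o3, o4⟩ := hone G K H M m hT s η' F' hη'.w0 hF' hmF' (Q i) θ θ' e hθ hθ' b1 b2
    have hAm := A_meas θ θ' hθ hθ'
    set A := {x : P × M | θ' (θ x • x) = (θ x)⁻¹} with hA
    have hmov := smul_meas θ hθ
    have hHt2 : MeasurableSet {p : (P × M) × ℝ | Ht F F' (θ p.1 • p.1) p.2} :=
      ((hmov.comp measurable_fst).prodMk measurable_snd) hHtm
    have hEm : MeasurableSet {p : (P × M) × ℝ | p.1 ∈ A ∧ ¬ Ht F F' (θ p.1 • p.1) p.2} :=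
      (measurable_fst hAm).inter hHt2.compl
    have c5 : C {ω : Cp G K H M | ω.1.1 ∈ A ∧ ¬ Ht F F' (θ ω.1.1 • ω.1.1) ω.2} ≤ e + e := by
      have h1 := hE _ hEm
      have h2 : {ω : Cp G K H M | (ω.1.1, ω.2) ∈
          {p : (P × M) × ℝ | p.1 ∈ A ∧ ¬ Ht F F' (θ p.1 • p.1) p.2}} =
          {ω : Cp G K H M | ω.1.1 ∈ A ∧ ¬ Ht F F' (θ ω.1.1 • ω.1.1) ω.2} := rfl
      rw [h2] at h1
      rw [h1]
      calc ∫⁻ x, F x * F' x * volume {r : ℝ | Ht F F' x r ∧ (x, r) ∈
              {p : (P × M) × ℝ | p.1 ∈ A ∧ ¬ Ht F F' (θ p.1 • p.1) p.2}} ∂(mu m s)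
          ≤ ∫⁻ x, A.indicator (fun x => (F (θ x • x) - F x) + (F' (θ x • x) - F' x)) x
              ∂(mu m s) := by
            refine lintegral_mono fun x => ?_
            by_cases hx : x ∈ A
            · rw [indicator_of_mem hx]
              have h3 := (hht (F x) (F' x) (F (θ x • x)) (F' (θ x • x)) (hFt x) (hFt' x)
                (hFt _) (hFt' _)).2
              refine le_trans (mul_le_mul_right (measure_mono ?_) _) h3
              rintro r ⟨hr1, -, hr2⟩
              exact ⟨hr1, hr2⟩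
            · rw [indicator_of_notMem hx]
              have h3 : {r : ℝ | Ht F F' x r ∧ (x, r) ∈
                  {p : (P × M) × ℝ | p.1 ∈ A ∧ ¬ Ht F F' (θ p.1 • p.1) p.2}} = ∅ := by
                ext r
                simp only [mem_setOf_eq, mem_empty_iff_false, iff_false]
                rintro ⟨-, h, -⟩
                exact hx h
              rw [h3, measure_empty, mul_zero]
        _ = ∫⁻ x in A, ((F (θ x • x) - F x) + (F' (θ x • x) - F' x)) ∂(mu m s) :=
            lintegral_indicator hAm _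
        _ = ∫⁻ x in A, (F (θ x • x) - F x) ∂(mu m s) +
            ∫⁻ x in A, (F' (θ x • x) - F' x) ∂(mu m s) := by
            apply lintegral_add_left
            exact (hF.comp hmov).sub hF
        _ ≤ e + e := add_le_add o2 o4
    have c1 : C {ω : Cp G K H M | (ω.1.1, ω.1.2.1) ∈
        {ω : St G K H M | ω.2.2 (Q i) (θ ω.1) = false}} ≤ e := (hCη _).trans a1
    have c2 : C {ω : Cp G K H M | (ω.1.1, ω.1.2.2) ∈
        {ω : St G K H M | ω.2.2 (Q i) (θ ω.1) = false}} ≤ e := (hCη' _).trans b1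
    have c3 : C {ω : Cp G K H M | (ω.1.1, ω.1.2.1) ∈
        {ω : St G K H M | θ' (θ ω.1 • ω.1) ≠ (θ ω.1)⁻¹}} ≤ 2 * e := (hCη _).trans o1
    have hsub : (univ : Set (Cp G K H M)) ⊆ N ∪
        ({ω : Cp G K H M | (ω.1.1, ω.1.2.1) ∈
          {ω : St G K H M | ω.2.2 (Q i) (θ ω.1) = false}} ∪
        ({ω : Cp G K H M | (ω.1.1, ω.1.2.2) ∈
          {ω : St G K H M | ω.2.2 (Q i) (θ ω.1) = false}} ∪
        ({ω : Cp G K H M | (ω.1.1, ω.1.2.1) ∈
          {ω : St G K H M | θ' (θ ω.1 • ω.1) ≠ (θ ω.1)⁻¹}} ∪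
        ({ω | ¬ Ht F F' ω.1.1 ω.2} ∪
          {ω : Cp G K H M | ω.1.1 ∈ A ∧ ¬ Ht F F' (θ ω.1.1 • ω.1.1) ω.2})))) := by
      intro ω _
      by_contra hcon
      simp only [mem_union, not_or] at hcon
      obtain ⟨n0, n1, n2, n3, n4, n5⟩ := hcon
      have e1 : ω.1.2.1.2 (Q i) (θ ω.1.1) = true := by
        rw [← Bool.not_eq_false]
        exact n1
      have e2 : ω.1.2.2.2 (Q i) (θ ω.1.1) = true := by
        rw [← Bool.not_eq_false]
        exact n2
      have e3 : ω.1.1 ∈ A := by
        by_contra h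
        exact n3 h
      have e4 : Ht F F' ω.1.1 ω.2 := by
        by_contra h
        exact n4 h
      have e5 : Ht F F' (θ ω.1.1 • ω.1.1) ω.2 := by
        by_contra h
        exact n5 ⟨e3, h⟩
      exact n0 (mem_iUnion.2 ⟨θ ω.1.1, e1, e2, e4, e5⟩)
    have h4 : C univ ≤ C N + (e + (e + (2 * e + (0 + (e + e))))) := by
      refine (measure_mono hsub).trans ?_
      refine (measure_union_le _ _).trans (add_le_add le_rfl ?_)
      refine (measure_union_le _ _).trans (add_le_add c1 ?_)
      refine (measure_union_le _ _).trans (add_le_add c2 ?_)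
      refine (measure_union_le _ _).trans (add_le_add c3 ?_)
      refine (measure_union_le _ _).trans (add_le_add hHtae.le c5)
    have h5 : e + (e + (2 * e + (0 + (e + e)))) = ENNReal.ofReal (6 / 10 ^ 7) := by
      have h6 : (2 : ℝ≥0∞) * e = e + e := two_mul e
      rw [h6, zero_add, he, ← ENNReal.ofReal_add (by norm_num) (by norm_num),
        ← ENNReal.ofReal_add (by norm_num) (by norm_num),
        ← ENNReal.ofReal_add (by norm_num) (by norm_num),
        ← ENNReal.ofReal_add (by norm_num) (by norm_num)]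
      congr 1
      norm_num
    rw [h5] at h4
    have h6 : T0 ≤ (C N).toReal + 6 / 10 ^ 7 := by
      have h7 := ENNReal.toReal_mono (ENNReal.add_ne_top.2 ⟨measure_ne_top C N,
        ENNReal.ofReal_ne_top⟩) h4
      rw [ENNReal.toReal_add (measure_ne_top C N) ENNReal.ofReal_ne_top,
        ENNReal.toReal_ofReal (by norm_num)] at h7
      exact h7
    rw [le_div_iff₀ (by linarith)]
    nlinarith
  have hrt := hS.rt _ hPD hgen
  by_contra htt
  obtain ⟨n, hn⟩ : ∃ n, t n ≠ t' n := by
    by_contra hcon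
    push Not at hcon
    exact htt (funext hcon)
  have h9 := hrt n
  set a := c n with ha
  set N := ⋃ u : H, NC (K := K) (M := M) F F' a u with hN
  set p1 : Cp G K H M → St G K H M := fun ω => (ω.1.1, ω.1.2.1) with hp1d
  set p2 : Cp G K H M → St G K H M := fun ω => (ω.1.1, ω.1.2.2) with hp2d
  set e : ℝ≥0∞ := ENNReal.ofReal (1 / 10 ^ 7) with he
  set B1 := p1 ⁻¹' (⋃ u : H, ({ω : St G K H M | ω.2.2 a u = true} ∩ T a u ⁻¹' (Bad G H M q l')))
  set B2 := p2 ⁻¹' (⋃ u : H, ({ω : St G K H M | ω.2.2 a u = true} ∩ T a u ⁻¹' (Bad G H M q l')))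
  set B3 := p1 ⁻¹' (Bad G H M q l')
  set B4 := p2 ⁻¹' (Bad G H M q l')
  set B5 := p1 ⁻¹' {ω : St G K H M | ω.2.1.1 ≠ t}
  set B6 := p2 ⁻¹' {ω : St G K H M | ω.2.1.1 ≠ t'}
  have c3 : C B3 ≤ e := (hCη _).trans (Bad_le q hS.q_cont l' η hη.dig)
  have c4 : C B4 ≤ e := (hCη' _).trans (Bad_le q hS.q_cont l' η' hη'.dig)
  have c1 : C B1 ≤ e :=
    (hCη _).trans ((Bad_move q hS.q_cont l' η hη.w0 a).trans (Bad_le q hS.q_cont l' η hη.dig))
  have c2 : C B2 ≤ e :=
    (hCη' _).trans ((Bad_move q hS.q_cont l' η' hη'.w0 a).trans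
      (Bad_le q hS.q_cont l' η' hη'.dig))
  have c5 : C B5 ≤ 0 := (hCη _).trans hη.par.le
  have c6 : C B6 ≤ 0 := (hCη' _).trans hη'.par.le
  have hsub : N ⊆ B1 ∪ (B2 ∪ (B3 ∪ (B4 ∪ (B5 ∪ B6)))) := by
    intro ω hω
    obtain ⟨u, hu1, hu2, -, -⟩ := mem_iUnion.1 hω
    by_contra hcon
    simp only [mem_union, not_or] at hcon
    obtain ⟨n1, n2, n3, n4, n5, n6⟩ := hcon
    have e1 : HH l' (u • ω.1.1) = q (a • ω.1.2.1.1) := by
      by_contra h
      exact n1 (mem_iUnion.2 ⟨u, hu1, h⟩)
    have e2 : HH l' (u • ω.1.1) = q (a • ω.1.2.2.1) := by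
      by_contra h
      exact n2 (mem_iUnion.2 ⟨u, hu2, h⟩)
    have e3 : HH l' ω.1.1 = q ω.1.2.1.1 := by
      by_contra h
      exact n3 h
    have e4 : HH l' ω.1.1 = q ω.1.2.2.1 := by
      by_contra h
      exact n4 h
    have e5 : ω.1.2.1.1.1 = t := by
      by_contra h
      exact n5 h
    have e6 : ω.1.2.2.1.1 = t' := by
      by_contra h
      exact n6 h
    rw [ha, hS.q_c, e5, ← e3] at e1
    rw [ha, hS.q_c, e6, ← e4, e1] at e2
    exact hn (Bool.xor_left_inj.1 e2)
  have hle : C N ≤ ENNReal.ofReal (4 / 10 ^ 7) := by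
    calc C N ≤ C (B1 ∪ (B2 ∪ (B3 ∪ (B4 ∪ (B5 ∪ B6))))) := measure_mono hsub
      _ ≤ C B1 + (C B2 + (C B3 + (C B4 + (C B5 + C B6)))) := by
        refine (measure_union_le _ _).trans (add_le_add le_rfl ?_)
        refine (measure_union_le _ _).trans (add_le_add le_rfl ?_)
        refine (measure_union_le _ _).trans (add_le_add le_rfl ?_)
        refine (measure_union_le _ _).trans (add_le_add le_rfl ?_)
        exact measure_union_le _ _
      _ ≤ e + (e + (e + (e + (0 + 0)))) :=
        add_le_add c1 (add_le_add c2 (add_le_add c3 (add_le_add c4 (add_le_add c5 c6))))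
      _ = ENNReal.ofReal (4 / 10 ^ 7) := by
        rw [add_zero, add_zero, he, ← ENNReal.ofReal_add (by norm_num) (by norm_num),
          ← ENNReal.ofReal_add (by norm_num) (by norm_num),
          ← ENNReal.ofReal_add (by norm_num) (by norm_num)]
        norm_num
  have hle2 : (C N).toReal ≤ 4 / 10 ^ 7 := by
    have := ENNReal.toReal_mono ENNReal.ofReal_ne_top hle
    rwa [ENNReal.toReal_ofReal (by norm_num)] at this
  have h10 : (9 : ℝ) / 10 * T0 ≤ (C N).toReal := by
    rwa [le_div_iff₀ (by linarith)] at h9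
  have : (9 : ℝ) / 10 * (99 / 100) ≤ 4 / 10 ^ 7 := by linarith
  norm_num at this

end Pool.Agent.H353.CSpair
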